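import Pool.Agent.Helper18.NF.StA
import Pool.Agent.Helper18.BV.WtLemmas

/-!
# NF-20: the total mass of a system (helper83)

Elementary proof: Mertens' theorem `∑_{d ≤ T} L(d) / d = log T + O(1)` from the smooth counting of
`r`, and Abel summation.
-/

set_option autoImplicit false

open Finset Filter Topology
open scoped ArithmeticFunction.vonMangoldt

namespace Pool.Agent.Helper83.NF

open Pool.Agent.Helper18.NF Pool.Agent.Helper18.BV

namespace Mass

/-! ### Two test functions -/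

/-- a tent -/
noncomputable def tn (y : ℝ) : ℝ := max 0 (1 - |y - 2|)

/-- the logarithm cut off -/
noncomputable def lc (y : ℝ) : ℝ := Real.log (max 1 (min y 3))

theorem tn_lip (y z : ℝ) : |tn y - tn z| ≤ |y - z| := by
  unfold tn
  have h1 : |max 0 (1 - |y - 2|) - max 0 (1 - |z - 2|)| ≤ |(1 - |y - 2|) - (1 - |z - 2|)| := by
    rw [max_comm 0, max_comm 0]
    exact abs_max_sub_max_le_abs _ _ _
  refine h1.trans ?_
  have h2 : (1 - |y - 2|) - (1 - |z - 2|) = |z - 2| - |y - 2| := by ring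
  rw [h2, abs_sub_comm y z]
  have h3 := abs_abs_sub_abs_le_abs_sub (z - 2) (y - 2)
  have h4 : z - 2 - (y - 2) = z - y := by ring
  rwa [h4] at h3

theorem tn_nonneg (y : ℝ) : 0 ≤ tn y := le_max_left _ _

theorem tn_le_one (y : ℝ) : tn y ≤ 1 := by
  unfold tn
  exact max_le zero_le_one (by linarith [abs_nonneg (y - 2)])

theorem tn_zero {y : ℝ} (h : y ≤ 1 ∨ 3 ≤ y) : tn y = 0 := by
  unfold tn
  apply max_eq_left
  rcases h with h | h
  · have := neg_le_abs (y - 2)
    linarith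
  · have := le_abs_self (y - 2)
    linarith

theorem log_lip {a b : ℝ} (ha : 1 ≤ a) (hb : 1 ≤ b) : |Real.log a - Real.log b| ≤ |a - b| := by
  wlog hab : b ≤ a with H
  · rw [abs_sub_comm, abs_sub_comm a b]
    exact H hb ha (le_of_not_ge hab)
  have hb0 : 0 < b := by linarith
  have ha0 : 0 < a := by linarith
  have h1 : Real.log b ≤ Real.log a := Real.log_le_log hb0 hab
  rw [abs_of_nonneg (by linarith), abs_of_nonneg (by linarith), ← Real.log_div ha0.ne' hb0.ne']
  have h2 : Real.log (a / b) ≤ a / b - 1 := Real.log_le_sub_one_of_pos (by positivity)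
  have h3 : a / b - 1 = (a - b) / b := by field_simp
  have h4 : (a - b) / b ≤ a - b := div_le_self (by linarith) hb
  linarith

theorem clamp_lip (y z : ℝ) : |max 1 (min y 3) - max 1 (min z 3)| ≤ |y - z| := by
  have h1 : |max 1 (min y 3) - max 1 (min z 3)| ≤ |min y 3 - min z 3| := by
    rw [max_comm 1, max_comm 1]
    exact abs_max_sub_max_le_abs _ _ _
  have h2 : |min y 3 - min z 3| ≤ |y - z| := abs_inf_sub_inf_le_abs _ _ _
  exact h1.trans h2

theorem lc_lip (y z : ℝ) : |lc y - lc z| ≤ |y - z| :=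
  (log_lip (le_max_left _ _) (le_max_left _ _)).trans (clamp_lip y z)

theorem lc_nonneg (y : ℝ) : 0 ≤ lc y := Real.log_nonneg (le_max_left _ _)

theorem lc_le (y : ℝ) : lc y ≤ 2 := by
  unfold lc
  have h1 : max 1 (min y 3) ≤ 3 := max_le (by norm_num) (min_le_right _ _)
  have h0 : (0 : ℝ) < max 1 (min y 3) := lt_of_lt_of_le one_pos (le_max_left _ _)
  have h2 := Real.log_le_sub_one_of_pos h0
  linarith

theorem lc_eq {y : ℝ} (h1 : 1 ≤ y) (h3 : y ≤ 3) : lc y = Real.log y := by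
  unfold lc
  rw [min_eq_left h3, max_eq_right h1]

theorem isTest_tn : IsTest 1 (fun y => (tn y : ℂ)) where
  lip y z := by
    rw [← Complex.ofReal_sub, Complex.norm_real, Real.norm_eq_abs, one_mul]
    exact tn_lip y z
  supp y h := by
    rw [tn_zero, Complex.ofReal_zero]
    rcases h with h | h
    · exact Or.inl h
    · exact Or.inr (by linarith)

theorem isTest_lt : IsTest 3 (fun y => ((lc y * tn y : ℝ) : ℂ)) where
  lip y z := by
    rw [← Complex.ofReal_sub, Complex.norm_real, Real.norm_eq_abs]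
    have h1 : lc y * tn y - lc z * tn z = (lc y - lc z) * tn y + lc z * (tn y - tn z) := by ring
    rw [h1]
    refine (abs_add_le _ _).trans ?_
    rw [abs_mul, abs_mul, abs_of_nonneg (tn_nonneg y), abs_of_nonneg (lc_nonneg z)]
    have h2 := lc_lip y z
    have h3 := tn_lip y z
    have h4 := tn_le_one y
    have h5 := tn_nonneg y
    have h6 := lc_nonneg z
    have h7 := lc_le z
    have h8 := abs_nonneg (y - z)
    have h9 : |lc y - lc z| * tn y ≤ |y - z| * 1 := mul_le_mul h2 h4 h5 h8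
    have h10 : lc z * |tn y - tn z| ≤ 2 * |y - z| := mul_le_mul h7 h3 (abs_nonneg _) (by norm_num)
    linarith
  supp y h := by
    rw [tn_zero, mul_zero, Complex.ofReal_zero]
    rcases h with h | h
    · exact Or.inl h
    · exact Or.inr (by linarith)

theorem int_tn_pos : 0 < ∫ y, tn y := by
  have hc : Continuous tn := by
    unfold tn
    fun_prop
  have hs : HasCompactSupport tn := by
    apply HasCompactSupport.intro (isCompact_Icc (a := (1 : ℝ)) (b := 3))
    intro y hy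
    apply tn_zero
    rw [Set.mem_Icc, not_and_or, not_le, not_le] at hy
    rcases hy with hy | hy
    · exact Or.inl hy.le
    · exact Or.inr hy.le
  apply hc.integral_pos_of_hasCompactSupport_nonneg_nonzero hs tn_nonneg (x := 2)
  unfold tn
  norm_num

/-! ### Real form of the smooth counting -/

theorem real_triv {n : ℕ} {r L : ArithmeticFunction ℝ} {κ : ℝ} (h : IsSys n r L κ) :
    ∃ C : ℝ, 0 < C ∧ ∀ (B T : ℝ) (F : ℝ → ℝ), IsTest B (fun y => (F y : ℂ)) → 1 ≤ T →
    |∑ m ∈ Icc 1 ⌊4 * T⌋₊, r m * F (m / T) - κ * T * ∫ y, F y| ≤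
      C * B * T ^ (1 - 1 / (n : ℝ)) := by
  obtain ⟨C, hC, hC'⟩ := h.triv
  refine ⟨C, hC, fun B T F hF hT => ?_⟩
  have h1 := hC' B T (fun y => (F y : ℂ)) hF hT
  have h2 : (∑ m ∈ Icc 1 ⌊4 * T⌋₊, (r m : ℂ) * (F (m / T) : ℂ) - κ * T * ∫ y, (F y : ℂ)) =
      ((∑ m ∈ Icc 1 ⌊4 * T⌋₊, r m * F (m / T) - κ * T * ∫ y, F y : ℝ) : ℂ) := by
    push_cast
    rw [integral_complex_ofReal]
  rw [h2, Complex.norm_real, Real.norm_eq_abs] at h1
  exact h1

/-! ### Chebyshev -/

theorem cheb {t : ℝ} (ht : 0 ≤ t) : ∑ d ∈ Icc 1 ⌊t⌋₊, Λ d ≤ 6 * t := by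
  have h1 := Chebyshev.psi_le_const_mul_self ht
  have h2 : Real.log 4 ≤ 2 := by
    have h3 : Real.log 4 = 2 * Real.log 2 := by
      rw [show (4 : ℝ) = 2 ^ 2 by norm_num, Real.log_pow]
      norm_num
    have := Real.log_two_lt_d9
    rw [h3]
    linarith
  have h4 : ∑ d ∈ Icc 1 ⌊t⌋₊, Λ d = Chebyshev.psi t := by
    unfold Chebyshev.psi
    apply Finset.sum_congr _ fun _ _ => rfl
    ext m
    rw [Finset.mem_Icc, Finset.mem_Ioc]
    omega
  rw [h4]
  refine h1.trans ?_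
  nlinarith

/-- `∑_{d ≤ T} Λ(d) (T/d)^s = O(T)` for `s < 1` -/
theorem cheb_rpow {s : ℝ} (hs0 : 0 ≤ s) (hs : s < 1) : ∃ C : ℝ, 0 < C ∧ ∀ T : ℝ, 1 ≤ T →
    ∑ d ∈ Icc 1 ⌊T⌋₊, Λ d * (T / d) ^ s ≤ C * T := by
  set ρ : ℝ := (2 : ℝ) ^ (s - 1) with hρ
  have hρ0 : 0 < ρ := Real.rpow_pos_of_pos two_pos _
  have hρ1 : ρ < 1 := Real.rpow_lt_one_of_one_lt_of_neg one_lt_two (by linarith)
  have h1ρ : 0 < 1 - ρ := by linarith
  refine ⟨12 / (1 - ρ), by positivity, fun T hT => ?_⟩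
  have hT0 : 0 < T := by linarith
  obtain ⟨N, hN⟩ := pow_unbounded_of_one_lt T (one_lt_two : (1 : ℝ) < 2)
  have key : ∀ d ∈ Icc 1 ⌊T⌋₊, Λ d * (T / d) ^ s ≤
      ∑ j ∈ Finset.range N, (if d ∈ Icc 1 ⌊T / 2 ^ j⌋₊ then Λ d * ((2 : ℝ) ^ (j + 1)) ^ s else 0) := by
    intro d hd
    have hd1 : 1 ≤ d := (Finset.mem_Icc.1 hd).1
    have hd0 : (0 : ℝ) < d := by exact_mod_cast hd1
    have hdT : (d : ℝ) ≤ T := (Nat.le_floor_iff hT0.le).1 (Finset.mem_Icc.1 hd).2
    have hex : ∃ j : ℕ, T / 2 ^ (j + 1) < d := by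
      refine ⟨N, ?_⟩
      rw [div_lt_iff₀ (by positivity)]
      have h2 : (2 : ℝ) ^ N ≤ 2 ^ (N + 1) := pow_le_pow_right₀ one_le_two (Nat.le_succ N)
      have h3 : (1 : ℝ) ≤ d := by exact_mod_cast hd1
      nlinarith [pow_pos (two_pos : (0 : ℝ) < 2) (N + 1)]
    classical
    set j := Nat.find hex with hj
    have hj1 : T / 2 ^ (j + 1) < d := Nat.find_spec hex
    have hj2 : (d : ℝ) ≤ T / 2 ^ j := by
      rcases Nat.eq_zero_or_pos j with h0 | h0
      · rw [h0, pow_zero, div_one]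
        exact hdT
      · have := Nat.find_min hex (Nat.sub_lt h0 one_pos)
        have hh : j - 1 + 1 = j := by omega
        rw [not_lt, hh] at this
        exact this
    have hjN : j < N := by
      by_contra hcon
      rw [not_lt] at hcon
      have h2 : (2 : ℝ) ^ N ≤ 2 ^ j := pow_le_pow_right₀ one_le_two hcon
      have h3 : (1 : ℝ) ≤ d := by exact_mod_cast hd1
      rw [le_div_iff₀ (by positivity)] at hj2
      nlinarith [pow_pos (two_pos : (0 : ℝ) < 2) j]
    have hmem : d ∈ Icc 1 ⌊T / 2 ^ j⌋₊ :=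
      Finset.mem_Icc.2 ⟨hd1, (Nat.le_floor_iff (by positivity)).2 hj2⟩
    have hterm : Λ d * (T / d) ^ s ≤
        (if d ∈ Icc 1 ⌊T / 2 ^ j⌋₊ then Λ d * ((2 : ℝ) ^ (j + 1)) ^ s else 0) := by
      rw [if_pos hmem]
      apply mul_le_mul_of_nonneg_left _ ArithmeticFunction.vonMangoldt_nonneg
      apply Real.rpow_le_rpow (by positivity) _ hs0
      rw [div_le_iff₀ hd0]
      rw [div_lt_iff₀ (by positivity)] at hj1
      linarith
    refine hterm.trans ?_
    apply Finset.single_le_sum (f := fun j => (if d ∈ Icc 1 ⌊T / 2 ^ j⌋₊ then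
      Λ d * ((2 : ℝ) ^ (j + 1)) ^ s else 0)) _ (Finset.mem_range.2 hjN)
    intro i _
    split_ifs
    · exact mul_nonneg ArithmeticFunction.vonMangoldt_nonneg (by positivity)
    · exact le_rfl
  calc ∑ d ∈ Icc 1 ⌊T⌋₊, Λ d * (T / d) ^ s
      ≤ ∑ d ∈ Icc 1 ⌊T⌋₊, ∑ j ∈ Finset.range N,
        (if d ∈ Icc 1 ⌊T / 2 ^ j⌋₊ then Λ d * ((2 : ℝ) ^ (j + 1)) ^ s else 0) :=
        Finset.sum_le_sum key
    _ = ∑ j ∈ Finset.range N, ∑ d ∈ Icc 1 ⌊T⌋₊,
        (if d ∈ Icc 1 ⌊T / 2 ^ j⌋₊ then Λ d * ((2 : ℝ) ^ (j + 1)) ^ s else 0) :=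
        Finset.sum_comm
    _ ≤ ∑ j ∈ Finset.range N, 12 * T * ρ ^ j := by
        apply Finset.sum_le_sum
        intro j _
        rw [← Finset.sum_filter]
        have hsub : (Icc 1 ⌊T⌋₊).filter (fun d => d ∈ Icc 1 ⌊T / 2 ^ j⌋₊) ⊆
            Icc 1 ⌊T / 2 ^ j⌋₊ := fun d hd => (Finset.mem_filter.1 hd).2
        have h2 : ∑ d ∈ (Icc 1 ⌊T⌋₊).filter (fun d => d ∈ Icc 1 ⌊T / 2 ^ j⌋₊),
            Λ d * ((2 : ℝ) ^ (j + 1)) ^ s ≤
            ∑ d ∈ Icc 1 ⌊T / 2 ^ j⌋₊, Λ d * ((2 : ℝ) ^ (j + 1)) ^ s :=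
          Finset.sum_le_sum_of_subset_of_nonneg hsub
            (fun d _ _ => mul_nonneg ArithmeticFunction.vonMangoldt_nonneg (by positivity))
        refine h2.trans ?_
        rw [← Finset.sum_mul]
        have h3 : ∑ d ∈ Icc 1 ⌊T / 2 ^ j⌋₊, Λ d ≤ 6 * (T / 2 ^ j) := cheb (by positivity)
        have h4 : ((2 : ℝ) ^ (j + 1)) ^ s ≤ 2 * ((2 : ℝ) ^ j) ^ s := by
          rw [pow_succ, Real.mul_rpow (by positivity) (by norm_num), mul_comm]
          apply mul_le_mul_of_nonneg_right _ (by positivity)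
          calc (2 : ℝ) ^ s ≤ 2 ^ (1 : ℝ) := Real.rpow_le_rpow_of_exponent_le one_le_two hs.le
            _ = 2 := Real.rpow_one 2
        have h5 : ((2 : ℝ) ^ j) ^ s / 2 ^ j = ρ ^ j := by
          rw [hρ, Real.rpow_sub_one two_ne_zero, div_pow, ← Real.rpow_natCast (2 ^ s),
            ← Real.rpow_natCast 2 j, ← Real.rpow_mul (by norm_num), ← Real.rpow_mul (by norm_num),
            mul_comm (j : ℝ) s]
        calc (∑ d ∈ Icc 1 ⌊T / 2 ^ j⌋₊, Λ d) * ((2 : ℝ) ^ (j + 1)) ^ s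
            ≤ (6 * (T / 2 ^ j)) * (2 * ((2 : ℝ) ^ j) ^ s) := by
              apply mul_le_mul h3 h4 (by positivity) (by positivity)
          _ = 12 * T * (((2 : ℝ) ^ j) ^ s / 2 ^ j) := by ring
          _ = 12 * T * ρ ^ j := by rw [h5]
    _ = 12 * T * ∑ j ∈ Finset.range N, ρ ^ j := by rw [Finset.mul_sum]
    _ ≤ 12 * T * (1 / (1 - ρ)) := by
        apply mul_le_mul_of_nonneg_left _ (by positivity)
        rw [geom_sum_eq hρ1.ne, ← neg_div_neg_eq, neg_sub, neg_sub]
        apply div_le_div_of_nonneg_right _ h1ρ.le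
        linarith [pow_pos hρ0 N]
    _ = 12 / (1 - ρ) * T := by ring

/-! ### Mertens -/

/-- the sum over multiples -/
theorem conv_sum (r L : ArithmeticFunction ℝ) (N : ℕ) (F : ℕ → ℝ) :
    ∑ m ∈ Icc 1 N, (r * L) m * F m =
      ∑ d ∈ Icc 1 N, L d * ∑ a ∈ Icc 1 (N / d), r a * F (a * d) := by
  have h1 : ∀ m ∈ Icc 1 N, (r * L) m * F m =
      ∑ d ∈ Icc 1 N, ∑ a ∈ Icc 1 N, if a * d = m then r a * L d * F (a * d) else 0 := by
    intro m hm
    have hm1 := Finset.mem_Icc.1 hm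
    rw [ArithmeticFunction.mul_apply, Finset.sum_mul, ← Finset.sum_product']
    rw [← Finset.sum_filter]
    symm
    apply Finset.sum_bij (fun (x : ℕ × ℕ) _ => (x.2, x.1))
    · intro x hx
      have h2 := Finset.mem_filter.1 hx
      exact Nat.mem_divisorsAntidiagonal.2 ⟨h2.2, by omega⟩
    · intro x _ y _ hxy
      rw [Prod.mk.injEq] at hxy
      exact Prod.ext hxy.2 hxy.1
    · intro y hy
      have h2 := Nat.mem_divisorsAntidiagonal.1 hy
      have h3 : 0 < y.1 := by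
        rcases Nat.eq_zero_or_pos y.1 with h | h
        · rw [h, zero_mul] at h2
          omega
        · exact h
      have h4 : 0 < y.2 := by
        rcases Nat.eq_zero_or_pos y.2 with h | h
        · rw [h, mul_zero] at h2
          omega
        · exact h
      have h5 : y.1 ≤ m := h2.1 ▸ Nat.le_mul_of_pos_right _ h4
      have h6 : y.2 ≤ m := h2.1 ▸ Nat.le_mul_of_pos_left _ h3
      refine ⟨(y.2, y.1), ?_, rfl⟩
      rw [Finset.mem_filter, Finset.mem_product, Finset.mem_Icc, Finset.mem_Icc]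
      exact ⟨⟨⟨h4, h6.trans hm1.2⟩, ⟨h3, h5.trans hm1.2⟩⟩, h2.1⟩
    · intro x hx
      have h2 := (Finset.mem_filter.1 hx).2
      rw [h2]
  rw [Finset.sum_congr rfl h1, Finset.sum_comm]
  apply Finset.sum_congr rfl
  intro d hd
  have hd1 := Finset.mem_Icc.1 hd
  rw [Finset.sum_comm, Finset.mul_sum]
  have h2 : ∀ a ∈ Icc 1 N, (∑ m ∈ Icc 1 N, if a * d = m then r a * L d * F (a * d) else 0) =
      if a ∈ Icc 1 (N / d) then L d * (r a * F (a * d)) else 0 := by
    intro a ha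
    have ha1 := Finset.mem_Icc.1 ha
    rw [Finset.sum_ite_eq]
    have h3 : a * d ∈ Icc 1 N ↔ a ∈ Icc 1 (N / d) := by
      rw [Finset.mem_Icc, Finset.mem_Icc, Nat.le_div_iff_mul_le hd1.1]
      constructor
      · intro h
        exact ⟨ha1.1, h.2⟩
      · intro h
        exact ⟨Nat.mul_pos ha1.1 hd1.1, h.2⟩
    by_cases h4 : a ∈ Icc 1 (N / d)
    · rw [if_pos (h3.2 h4), if_pos h4]
      ring
    · rw [if_neg (fun h => h4 (h3.1 h)), if_neg h4]
  rw [Finset.sum_congr rfl h2, ← Finset.sum_filter]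
  apply Finset.sum_congr _ fun _ _ => rfl
  ext a
  rw [Finset.mem_filter, Finset.mem_Icc, Finset.mem_Icc]
  constructor
  · intro h
    exact h.2
  · intro h
    exact ⟨⟨h.1, h.2.trans (Nat.div_le_self N d)⟩, h⟩

theorem mertens {n : ℕ} {r L : ArithmeticFunction ℝ} {κ : ℝ} (h : IsSys n r L κ) :
    ∃ C : ℝ, 0 < C ∧ ∀ T : ℝ, 1 ≤ T →
      |∑ d ∈ Icc 1 ⌊T⌋₊, L d / d - Real.log T| ≤ C := by
  obtain ⟨C0, hC0, htriv⟩ := real_triv h
  have hn : (1 : ℝ) ≤ n := by exact_mod_cast h.pos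
  have hn0 : (0 : ℝ) < n := by linarith
  set s : ℝ := 1 - 1 / (n : ℝ) with hs
  have hδ : 0 < 1 / (n : ℝ) := by positivity
  have hδ1 : 1 / (n : ℝ) ≤ 1 := by
    rw [div_le_one hn0]
    exact hn
  have hs0 : 0 ≤ s := by linarith
  have hs1 : s < 1 := by linarith
  obtain ⟨C1, hC1, hcheb⟩ := cheb_rpow hs0 hs1
  set I : ℝ := ∫ y, tn y with hI
  have hI0 : 0 < I := int_tn_pos
  set J : ℝ := ∫ y, lc y * tn y with hJ
  have hκ := h.kpos
  set R : ℝ := ∑ a ∈ Icc 1 3, |r a| with hR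
  have hR0 : 0 ≤ R := Finset.sum_nonneg fun _ _ => abs_nonneg _
  refine ⟨(C0 * n + 3 * C0 + κ * |J| + C0 * n * C1 + 24 * n * R + 1) / (κ * I), by positivity,
    fun T hT => ?_⟩
  have hT0 : 0 < T := by linarith
  set N : ℕ := ⌊4 * T⌋₊ with hN
  set M : ℕ := ⌊T⌋₊ with hM
  have hMN : M ≤ N := Nat.floor_le_floor (by linarith)
  -- the smooth sum with the logarithm
  have hlhs : ∑ m ∈ Icc 1 N, (r * L) m * tn (m / T) =
      Real.log T * ∑ m ∈ Icc 1 N, r m * tn (m / T) +
        ∑ m ∈ Icc 1 N, r m * (lc (m / T) * tn (m / T)) := by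
    rw [Finset.mul_sum, ← Finset.sum_add_distrib]
    apply Finset.sum_congr rfl
    intro m hm
    have hm1 : 1 ≤ m := (Finset.mem_Icc.1 hm).1
    have hm0 : (0 : ℝ) < m := by exact_mod_cast hm1
    rw [h.conv]
    by_cases hz : (m : ℝ) / T ≤ 1 ∨ 3 ≤ (m : ℝ) / T
    · rw [tn_zero hz]
      ring
    · rw [not_or, not_le, not_le] at hz
      rw [lc_eq hz.1.le hz.2.le, Real.log_div hm0.ne' hT0.ne']
      ring
  have hS1 := htriv 1 T tn isTest_tn hT
  have hS2 := htriv 3 T (fun y => lc y * tn y) isTest_lt hT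
  -- inner sums
  have hinner : ∀ d ∈ Icc 1 N, ∑ a ∈ Icc 1 (N / d), r a * tn ((a * d : ℕ) / T) =
      ∑ a ∈ Icc 1 ⌊4 * (T / d)⌋₊, r a * tn (a / (T / d)) := by
    intro d hd
    have hd1 : 1 ≤ d := (Finset.mem_Icc.1 hd).1
    have hd0 : (0 : ℝ) < d := by exact_mod_cast hd1
    have h1 : ⌊4 * (T / d)⌋₊ = N / d := by
      rw [hN, ← mul_div_assoc, Nat.floor_div_natCast]
    rw [h1]
    apply Finset.sum_congr rfl
    intro a _
    congr 2
    push_cast
    field_simp
  have hrhs : ∑ m ∈ Icc 1 N, (r * L) m * tn (m / T) =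
      ∑ d ∈ Icc 1 N, L d * ∑ a ∈ Icc 1 ⌊4 * (T / d)⌋₊, r a * tn (a / (T / d)) := by
    rw [conv_sum r L N (fun m => tn (m / T))]
    apply Finset.sum_congr rfl
    intro d hd
    rw [hinner d hd]
  -- error terms
  have herr : ∀ d ∈ Icc 1 N, |L d * ∑ a ∈ Icc 1 ⌊4 * (T / d)⌋₊, r a * tn (a / (T / d)) -
      (if d ∈ Icc 1 M then κ * I * T * (L d / d) else 0)| ≤
      n * C0 * (if d ∈ Icc 1 M then Λ d * (T / d) ^ s else 0) + n * R * Λ d := by
    intro d hd
    have hd1 : 1 ≤ d := (Finset.mem_Icc.1 hd).1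
    have hd0 : (0 : ℝ) < d := by exact_mod_cast hd1
    have hL0 := h.L_nonneg d
    have hL1 := h.L_le d
    have hΛ : 0 ≤ Λ d := ArithmeticFunction.vonMangoldt_nonneg
    by_cases hdM : d ∈ Icc 1 M
    · rw [if_pos hdM, if_pos hdM]
      have hdT : (d : ℝ) ≤ T := (Nat.le_floor_iff hT0.le).1 (Finset.mem_Icc.1 hdM).2
      have h1 := htriv 1 (T / d) tn isTest_tn ((one_le_div hd0).2 hdT)
      rw [mul_one, ← hI] at h1
      have h2 : L d * ∑ a ∈ Icc 1 ⌊4 * (T / d)⌋₊, r a * tn (a / (T / d)) -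
          κ * I * T * (L d / d) = L d * (∑ a ∈ Icc 1 ⌊4 * (T / d)⌋₊, r a * tn (a / (T / d)) -
          κ * (T / d) * I) := by ring
      rw [h2, abs_mul, abs_of_nonneg hL0]
      have h3 : (0 : ℝ) ≤ (T / d) ^ s := by positivity
      calc L d * |∑ a ∈ Icc 1 ⌊4 * (T / d)⌋₊, r a * tn (a / (T / d)) - κ * (T / d) * I|
          ≤ (n * Λ d) * (C0 * (T / d) ^ s) := mul_le_mul hL1 h1 (abs_nonneg _) (by positivity)
        _ ≤ n * C0 * (Λ d * (T / d) ^ s) + n * R * Λ d := by
            have : 0 ≤ n * R * Λ d := by positivity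
            nlinarith
    · rw [if_neg hdM, if_neg hdM, sub_zero, mul_zero, zero_add, abs_mul, abs_of_nonneg hL0]
      have hdT : T < d := by
        by_contra hcon
        rw [not_lt] at hcon
        exact hdM (Finset.mem_Icc.2 ⟨hd1, (Nat.le_floor_iff hT0.le).2 hcon⟩)
      have h4 : ⌊4 * (T / d)⌋₊ ≤ 3 := by
        have h5 : 4 * (T / d) < 4 := by
          have : T / d < 1 := (div_lt_one hd0).2 hdT
          linarith
        have h6 : ⌊4 * (T / d)⌋₊ < 4 := by
          rw [Nat.floor_lt (by positivity)]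
          exact_mod_cast h5
        omega
      have h5 : |∑ a ∈ Icc 1 ⌊4 * (T / d)⌋₊, r a * tn (a / (T / d))| ≤ R := by
        refine (Finset.abs_sum_le_sum_abs _ _).trans ?_
        calc ∑ a ∈ Icc 1 ⌊4 * (T / d)⌋₊, |r a * tn (a / (T / d))|
            ≤ ∑ a ∈ Icc 1 ⌊4 * (T / d)⌋₊, |r a| := by
              apply Finset.sum_le_sum
              intro a _
              rw [abs_mul, abs_of_nonneg (tn_nonneg _)]
              exact mul_le_of_le_one_right (abs_nonneg _) (tn_le_one _)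
          _ ≤ R := Finset.sum_le_sum_of_subset_of_nonneg (Finset.Icc_subset_Icc le_rfl h4)
              (fun _ _ _ => abs_nonneg _)
      calc L d * |∑ a ∈ Icc 1 ⌊4 * (T / d)⌋₊, r a * tn (a / (T / d))|
          ≤ (n * Λ d) * R := mul_le_mul hL1 h5 (abs_nonneg _) (by positivity)
        _ = n * R * Λ d := by ring
  have htot : |∑ m ∈ Icc 1 N, (r * L) m * tn (m / T) -
      κ * I * T * ∑ d ∈ Icc 1 M, L d / d| ≤ (n * C0 * C1 + 24 * n * R) * T := by
    have h1 : κ * I * T * ∑ d ∈ Icc 1 M, L d / d =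
        ∑ d ∈ Icc 1 N, (if d ∈ Icc 1 M then κ * I * T * (L d / d) else 0) := by
      rw [Finset.mul_sum, ← Finset.sum_filter]
      apply Finset.sum_congr _ fun _ _ => rfl
      ext d
      rw [Finset.mem_filter, Finset.mem_Icc, Finset.mem_Icc]
      constructor
      · intro hd
        exact ⟨⟨hd.1, hd.2.trans hMN⟩, hd⟩
      · intro hd
        exact hd.2
    rw [hrhs, h1, ← Finset.sum_sub_distrib]
    refine (Finset.abs_sum_le_sum_abs _ _).trans ((Finset.sum_le_sum herr).trans ?_)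
    rw [Finset.sum_add_distrib, ← Finset.mul_sum, ← Finset.mul_sum]
    have h2 : ∑ d ∈ Icc 1 N, (if d ∈ Icc 1 M then Λ d * (T / d) ^ s else 0) =
        ∑ d ∈ Icc 1 M, Λ d * (T / d) ^ s := by
      rw [← Finset.sum_filter]
      apply Finset.sum_congr _ fun _ _ => rfl
      ext d
      rw [Finset.mem_filter, Finset.mem_Icc, Finset.mem_Icc]
      constructor
      · intro hd
        exact hd.2
      · intro hd
        exact ⟨⟨hd.1, hd.2.trans hMN⟩, hd⟩
    rw [h2]
    have h3 := hcheb T hT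
    have h4 : ∑ d ∈ Icc 1 N, Λ d ≤ 6 * (4 * T) := cheb (by positivity)
    have h5 : 0 ≤ n * C0 := by positivity
    have h6 : 0 ≤ n * R := by positivity
    calc n * C0 * ∑ d ∈ Icc 1 M, Λ d * (T / d) ^ s + n * R * ∑ d ∈ Icc 1 N, Λ d
        ≤ n * C0 * (C1 * T) + n * R * (6 * (4 * T)) :=
          add_le_add (mul_le_mul_of_nonneg_left h3 h5) (mul_le_mul_of_nonneg_left h4 h6)
      _ = (n * C0 * C1 + 24 * n * R) * T := by ring
  -- conclusion
  set A : ℝ := ∑ d ∈ Icc 1 M, L d / d with hA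
  have hlogT : 0 ≤ Real.log T := Real.log_nonneg hT
  have hTs : T ^ s ≤ T := by
    calc T ^ s ≤ T ^ (1 : ℝ) := Real.rpow_le_rpow_of_exponent_le hT hs1.le
      _ = T := Real.rpow_one T
  have hlogTs : Real.log T * T ^ s ≤ n * T := by
    have h1 := Real.log_le_rpow_div hT0.le hδ
    have h2 : T ^ (1 / (n : ℝ)) / (1 / (n : ℝ)) = n * T ^ (1 / (n : ℝ)) := by
      field_simp
    rw [h2] at h1
    calc Real.log T * T ^ s ≤ (n * T ^ (1 / (n : ℝ))) * T ^ s :=
          mul_le_mul_of_nonneg_right h1 (by positivity)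
      _ = n * (T ^ (1 / (n : ℝ)) * T ^ s) := by ring
      _ = n * T := by
          rw [← Real.rpow_add hT0, hs]
          norm_num
  rw [hlhs] at htot
  set S1 : ℝ := ∑ m ∈ Icc 1 N, r m * tn (m / T) with hS1d
  set S2 : ℝ := ∑ m ∈ Icc 1 N, r m * (lc (m / T) * tn (m / T)) with hS2d
  rw [mul_one, ← hI] at hS1
  rw [← hJ] at hS2
  have e1 : |Real.log T * (S1 - κ * T * I)| ≤ C0 * n * T := by
    rw [abs_mul, abs_of_nonneg hlogT]
    calc Real.log T * |S1 - κ * T * I| ≤ Real.log T * (C0 * T ^ s) :=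
          mul_le_mul_of_nonneg_left hS1 hlogT
      _ = C0 * (Real.log T * T ^ s) := by ring
      _ ≤ C0 * (n * T) := mul_le_mul_of_nonneg_left hlogTs hC0.le
      _ = C0 * n * T := by ring
  have e2 : |S2| ≤ (3 * C0 + κ * |J|) * T := by
    have h1 : |S2| ≤ |S2 - κ * T * J| + |κ * T * J| := by
      have := abs_add_le (S2 - κ * T * J) (κ * T * J)
      rwa [sub_add_cancel] at this
    rw [abs_mul (κ * T) J, abs_of_pos (by positivity : 0 < κ * T)] at h1
    have h2 : C0 * 3 * T ^ s ≤ C0 * 3 * T := mul_le_mul_of_nonneg_left hTs (by positivity)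
    calc |S2| ≤ C0 * 3 * T + κ * T * |J| := by linarith
      _ = (3 * C0 + κ * |J|) * T := by ring
  have e3 : κ * I * T * (A - Real.log T) =
      -(Real.log T * S1 + S2 - κ * I * T * A) + Real.log T * (S1 - κ * T * I) + S2 := by ring
  have e4 : |κ * I * T * (A - Real.log T)| ≤
      (C0 * n + 3 * C0 + κ * |J| + C0 * n * C1 + 24 * n * R) * T := by
    rw [e3]
    refine (abs_add_le _ _).trans ?_
    have h1 := abs_add_le (-(Real.log T * S1 + S2 - κ * I * T * A))
      (Real.log T * (S1 - κ * T * I))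
    rw [abs_neg] at h1
    have h2 : (C0 * n + 3 * C0 + κ * |J| + C0 * n * C1 + 24 * n * R) * T =
      (n * C0 * C1 + 24 * n * R) * T + C0 * n * T + (3 * C0 + κ * |J|) * T := by ring
    rw [h2]
    linarith
  rw [abs_mul, abs_of_pos (by positivity : 0 < κ * I * T)] at e4
  rw [le_div_iff₀ (by positivity)]
  have e5 : |A - Real.log T| * (κ * I) ≤
      C0 * n + 3 * C0 + κ * |J| + C0 * n * C1 + 24 * n * R := by
    apply le_of_mul_le_mul_right _ hT0
    calc |A - Real.log T| * (κ * I) * T = κ * I * T * |A - Real.log T| := by ring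
      _ ≤ _ := e4
  linarith

/-! ### Partial summation -/

theorem abel {g : ℝ → ℝ} (hg : IsWt g) {a : ℕ → ℝ} {C : ℝ} (hC : 0 < C) (ha0 : a 0 = 0)
    (ha : ∀ T : ℝ, 1 ≤ T → |∑ d ∈ Icc 1 ⌊T⌋₊, a d - Real.log T| ≤ C) :
    ∃ C' : ℝ, 0 < C' ∧ ∀ x : ℝ, 3 ≤ x →
      |∑ m ∈ Icc 1 ⌊x⌋₊, a m * g (Real.log m / Real.log x) - Real.log x * ∫ v, g v| ≤ C' := by
  have hgd : Differentiable ℝ g := hg.smooth.differentiable (by norm_num)
  have hgc : Continuous (deriv g) := hg.smooth.continuous_deriv (by norm_num)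
  obtain ⟨M, hM⟩ := (isCompact_Icc (a := (0 : ℝ)) (b := 1)).exists_bound_of_continuousOn
    hgc.continuousOn
  have hM0 : 0 ≤ M := (norm_nonneg _).trans (hM 0 (by norm_num))
  refine ⟨C * M + 1, by positivity, fun x hx => ?_⟩
  have hx0 : 0 < x := by linarith
  have hx1 : 1 < x := by linarith
  have hl : 0 < Real.log x := Real.log_pos hx1
  set f : ℝ → ℝ := fun t => g (Real.log t / Real.log x) with hf
  set f' : ℝ → ℝ := fun t => deriv g (Real.log t / Real.log x) * (t⁻¹ / Real.log x) with hf'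
  have hderiv : ∀ t : ℝ, 0 < t → HasDerivAt f (f' t) t := by
    intro t ht
    have h1 : HasDerivAt (fun t => Real.log t / Real.log x) (t⁻¹ / Real.log x) t :=
      (Real.hasDerivAt_log ht.ne').div_const _
    exact (hgd _).hasDerivAt.comp t h1
  have hderiv' : ∀ t : ℝ, 0 < t → deriv f t = f' t := fun t ht => (hderiv t ht).deriv
  have hpos : ∀ t ∈ Set.Icc 1 x, 0 < t := fun t ht => by linarith [ht.1]
  have hlogc : ContinuousOn Real.log (Set.Icc 1 x) :=
    Real.continuousOn_log.mono (fun t ht => (hpos t ht).ne')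
  have hf'c : ContinuousOn f' (Set.Icc 1 x) := by
    apply ContinuousOn.mul
    · exact hgc.comp_continuousOn (hlogc.div_const _)
    · exact (continuousOn_inv₀.mono (fun t ht => (hpos t ht).ne')).div_const _
  have hdc : ContinuousOn (deriv f) (Set.Icc 1 x) :=
    hf'c.congr (fun t ht => hderiv' t (hpos t ht))
  have habel := sum_mul_eq_sub_integral_mul₀ (f := f) a ha0 x
    (fun t ht => (hderiv t (hpos t ht)).differentiableAt) hdc.integrableOn_Icc
  have hfx : f x = 0 := by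
    rw [hf]
    dsimp only
    rw [div_self hl.ne']
    exact hg.zero_of_ge le_rfl
  have hf1 : f 1 = 0 := by
    rw [hf]
    dsimp only
    rw [Real.log_one, zero_div]
    exact hg.zero_of_le (by norm_num)
  rw [hfx, zero_mul, zero_sub] at habel
  have hsum : ∀ t : ℝ, ∑ k ∈ Icc 0 ⌊t⌋₊, a k = ∑ k ∈ Icc 1 ⌊t⌋₊, a k := by
    intro t
    symm
    apply Finset.sum_subset
    · exact Finset.Icc_subset_Icc (Nat.zero_le _) le_rfl
    · intro k hk hk'
      have h1 : k = 0 := by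
        rw [Finset.mem_Icc] at hk hk'
        omega
      rw [h1, ha0]
  have hlhs : ∑ m ∈ Icc 1 ⌊x⌋₊, a m * g (Real.log m / Real.log x) =
      ∑ k ∈ Icc 0 ⌊x⌋₊, f k * a k := by
    have h1 : ∑ k ∈ Icc 0 ⌊x⌋₊, f k * a k = ∑ k ∈ Icc 1 ⌊x⌋₊, f k * a k := by
      symm
      apply Finset.sum_subset
      · exact Finset.Icc_subset_Icc (Nat.zero_le _) le_rfl
      · intro k hk hk'
        have h1 : k = 0 := by
          rw [Finset.mem_Icc] at hk hk'
          omega
        rw [h1, ha0, mul_zero]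
    rw [h1]
    apply Finset.sum_congr rfl
    intro k _
    rw [mul_comm]
  -- the integral with the logarithm
  have hparts : ∫ t in (1 : ℝ)..x, f' t * Real.log t = -∫ t in (1 : ℝ)..x, f t * t⁻¹ := by
    have h1 : ∀ t ∈ Set.uIcc 1 x, HasDerivAt f (f' t) t := fun t ht =>
      hderiv t (by rw [Set.uIcc_of_le hx1.le] at ht; exact hpos t ht)
    have h2 : ∀ t ∈ Set.uIcc 1 x, HasDerivAt Real.log (t⁻¹) t := fun t ht =>
      Real.hasDerivAt_log (by rw [Set.uIcc_of_le hx1.le] at ht; exact (hpos t ht).ne')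
    have h3 : IntervalIntegrable f' MeasureTheory.volume 1 x := by
      apply ContinuousOn.intervalIntegrable
      rw [Set.uIcc_of_le hx1.le]
      exact hf'c
    have h4 : IntervalIntegrable (fun t : ℝ => t⁻¹) MeasureTheory.volume 1 x := by
      apply ContinuousOn.intervalIntegrable
      rw [Set.uIcc_of_le hx1.le]
      exact continuousOn_inv₀.mono (fun t ht => (hpos t ht).ne')
    have h5 := intervalIntegral.integral_mul_deriv_eq_deriv_mul h1 h2 h3 h4
    rw [hfx, hf1, zero_mul, zero_mul, sub_zero, zero_sub] at h5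
    rw [h5, neg_neg]
  have hsubst : ∫ t in (1 : ℝ)..x, f t * t⁻¹ = Real.log x * ∫ v, g v := by
    have h1 : ∫ t in (1 : ℝ)..x, (g ∘ fun t => Real.log t / Real.log x) t * (t⁻¹ / Real.log x) =
        ∫ v in (Real.log 1 / Real.log x)..(Real.log x / Real.log x), g v := by
      apply intervalIntegral.integral_comp_mul_deriv
      · intro t ht
        rw [Set.uIcc_of_le hx1.le] at ht
        exact (Real.hasDerivAt_log (hpos t ht).ne').div_const _
      · rw [Set.uIcc_of_le hx1.le]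
        exact (continuousOn_inv₀.mono (fun t ht => (hpos t ht).ne')).div_const _
      · exact hg.smooth.continuous
    rw [Real.log_one, zero_div, div_self hl.ne'] at h1
    have h2 : ∫ v in (0 : ℝ)..1, g v = ∫ v, g v := by
      apply intervalIntegral.integral_eq_integral_of_support_subset
      intro v hv
      have h3 := hg.supp (subset_tsupport g hv)
      exact ⟨by linarith [h3.1], h3.2.le⟩
    rw [← h2, ← h1, ← intervalIntegral.integral_const_mul]
    apply intervalIntegral.integral_congr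
    intro t _
    change f t * t⁻¹ = Real.log x * (f t * (t⁻¹ / Real.log x))
    field_simp
  -- the error
  have hint1 : MeasureTheory.IntegrableOn (fun t => f' t * Real.log t) (Set.Ioc 1 x) :=
    ((hf'c.mul hlogc).integrableOn_Icc).mono_set Set.Ioc_subset_Icc_self
  have hint2 : MeasureTheory.IntegrableOn (fun t => f' t * ∑ k ∈ Icc 0 ⌊t⌋₊, a k)
      (Set.Ioc 1 x) :=
    (integrableOn_mul_sum_Icc a zero_le_one hf'c.integrableOn_Icc).mono_set
      Set.Ioc_subset_Icc_self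
  have hA : ∫ t in Set.Ioc 1 x, deriv f t * ∑ k ∈ Icc 0 ⌊t⌋₊, a k =
      ∫ t in Set.Ioc 1 x, f' t * ∑ k ∈ Icc 0 ⌊t⌋₊, a k := by
    apply MeasureTheory.setIntegral_congr_fun measurableSet_Ioc
    intro t ht
    dsimp only
    rw [hderiv' t (by linarith [ht.1])]
  have hdiff : (∫ t in Set.Ioc 1 x, f' t * ∑ k ∈ Icc 0 ⌊t⌋₊, a k) -
      ∫ t in Set.Ioc 1 x, f' t * Real.log t =
      ∫ t in Set.Ioc 1 x, f' t * (∑ k ∈ Icc 1 ⌊t⌋₊, a k - Real.log t) := by
    rw [← MeasureTheory.integral_sub hint2 hint1]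
    apply MeasureTheory.setIntegral_congr_fun measurableSet_Ioc
    intro t _
    dsimp only
    rw [hsum t]
    ring
  have hbound : |∫ t in Set.Ioc 1 x, f' t * (∑ k ∈ Icc 1 ⌊t⌋₊, a k - Real.log t)| ≤ C * M := by
    have h1 : ‖∫ t in Set.Ioc 1 x, f' t * (∑ k ∈ Icc 1 ⌊t⌋₊, a k - Real.log t)‖ ≤
        ∫ t in Set.Ioc 1 x, (C * M / Real.log x) * t⁻¹ := by
      apply MeasureTheory.norm_integral_le_of_norm_le
      · exact (((continuousOn_inv₀.mono (fun t ht => (hpos t ht).ne')).integrableOn_Icc).mono_set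
          Set.Ioc_subset_Icc_self).const_mul _
      · rw [MeasureTheory.ae_restrict_iff' measurableSet_Ioc]
        apply Filter.Eventually.of_forall
        intro t ht
        have ht0 : 0 < t := by linarith [ht.1]
        have h2 : Real.log t / Real.log x ∈ Set.Icc (0 : ℝ) 1 := by
          refine ⟨div_nonneg (Real.log_nonneg ht.1.le) hl.le, ?_⟩
          rw [div_le_one hl]
          exact Real.log_le_log ht0 ht.2
        have h3 := hM _ h2
        have h4 := ha t ht.1.le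
        rw [norm_mul, Real.norm_eq_abs (∑ k ∈ Icc 1 ⌊t⌋₊, a k - Real.log t)]
        have h5 : ‖f' t‖ ≤ M * (t⁻¹ / Real.log x) := by
          rw [hf']
          dsimp only
          rw [norm_mul, Real.norm_of_nonneg (by positivity : 0 ≤ t⁻¹ / Real.log x)]
          exact mul_le_mul_of_nonneg_right h3 (by positivity)
        calc ‖f' t‖ * |∑ k ∈ Icc 1 ⌊t⌋₊, a k - Real.log t|
            ≤ (M * (t⁻¹ / Real.log x)) * C := mul_le_mul h5 h4 (abs_nonneg _) (by positivity)
          _ = C * M / Real.log x * t⁻¹ := by ring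
    rw [Real.norm_eq_abs] at h1
    refine h1.trans (le_of_eq ?_)
    rw [← intervalIntegral.integral_of_le hx1.le, intervalIntegral.integral_const_mul,
      integral_inv_of_pos one_pos hx0, div_one]
    field_simp
  have hmain : ∑ m ∈ Icc 1 ⌊x⌋₊, a m * g (Real.log m / Real.log x) - Real.log x * ∫ v, g v =
      -∫ t in Set.Ioc 1 x, f' t * (∑ k ∈ Icc 1 ⌊t⌋₊, a k - Real.log t) := by
    rw [hlhs, habel, hA, ← hdiff, ← hsubst]
    rw [intervalIntegral.integral_of_le hx1.le] at hparts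
    rw [hparts]
    ring
  rw [hmain, abs_neg]
  linarith

end Mass

open Mass in
/-- The total mass, without hypotheses. -/
theorem massF' : MassF := by
  intro n r L κ h g hg
  obtain ⟨C, hC, hC'⟩ := mertens h
  obtain ⟨C', h0, h1⟩ := abel hg (a := fun m => L m / m) hC (by simp) hC'
  refine ⟨C', 3, h0, le_rfl, fun x hx => ?_⟩
  have h2 : ∑ m ∈ Icc 1 ⌊x⌋₊, L m * wt g x m =
      ∑ m ∈ Icc 1 ⌊x⌋₊, L m / m * g (Real.log m / Real.log x) := by
    apply Finset.sum_congr rfl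
    intro m _
    unfold wt
    ring
  rw [h2]
  exact h1 x hx

/-- NF-20. -/
theorem massF (_h1 : Cont0) (_h2 : FourierRep) : MassF := massF'

end Pool.Agent.Helper83.NF
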